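import Mathlib
import Pool.Agent.H29.DV1

namespace Pool.Agent.Results.MP_d8403e_co.Divot41
open Finset Pool.Agent.H29.DV1

/-- the difference set `S - S` -/
def diffs (S : Finset ℕ) : Finset ℤ := (S ×ˢ S).image (fun p => (p.1 : ℤ) - p.2)

/-- the number of subsets `S` of `{0,…,n-1}` with `|S - S| = m` -/
def cnt (n m : ℕ) : ℕ := ((range n).powerset.filter (fun S => (diffs S).card = m)).card

/-- `P_{n,H}(m)`, the probability that a uniformly random subset has `|S - S| = m` -/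
noncomputable def P (n m : ℕ) : ℝ := (cnt n m : ℝ) / 2 ^ n

/-- `Q` has a divot at `i`: `Q i > 0` and `Q i` is smaller than the nearest nonzero term on
either side (both of which exist). -/
def Divot (Q : ℕ → ℝ) (i : ℕ) : Prop :=
  0 < Q i ∧ (∃ j, j < i ∧ Q j ≠ 0 ∧ (∀ l, j < l → l < i → Q l = 0) ∧ Q i < Q j) ∧
    (∃ j, i < j ∧ Q j ≠ 0 ∧ (∀ l, i < l → l < j → Q l = 0) ∧ Q i < Q j)

lemma mem_diffs {S : Finset ℕ} {d : ℤ} : d ∈ diffs S ↔ ∃ a ∈ S, ∃ b ∈ S, (a : ℤ) - b = d := by
  simp only [diffs, mem_image, mem_product, Prod.exists]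
  exact ⟨fun ⟨a, b, h, e⟩ => ⟨a, h.1, b, h.2, e⟩, fun ⟨a, h, b, h', e⟩ => ⟨a, b, ⟨h, h'⟩, e⟩⟩

lemma diffs_image {ι : Type} [Fintype ι] (x : ι → ℕ) :
    diffs (univ.image x) = D (fun i => (x i : ℤ)) := by
  ext d
  simp only [mem_diffs, D, mem_image, mem_univ, true_and, Prod.exists]
  constructor
  · rintro ⟨_, ⟨i, rfl⟩, _, ⟨j, rfl⟩, e⟩; exact ⟨i, j, e⟩
  · rintro ⟨i, j, e⟩; exact ⟨_, ⟨i, rfl⟩, _, ⟨j, rfl⟩, e⟩

lemma cnt_even (n m : ℕ) (h : Even m) (h0 : m ≠ 0) : cnt n m = 0 := by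
  rw [cnt, card_eq_zero, filter_eq_empty_iff]
  intro S _ hS
  rcases S.eq_empty_or_nonempty with rfl | ⟨a, ha⟩
  · simp [diffs] at hS; omega
  have z : (0 : ℤ) ∈ diffs S := mem_diffs.2 ⟨a, ha, a, ha, sub_self _⟩
  have e1 := card_filter_add_card_filter_not (s := (diffs S).erase 0) (fun d => 0 < d)
  have e2 : (((diffs S).erase 0).filter (fun d => 0 < d)).card
      = (((diffs S).erase 0).filter (fun d => ¬ 0 < d)).card := by
    have neg : ∀ d ∈ diffs S, -d ∈ diffs S := fun d hd => by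
      obtain ⟨a, ha, b, hb, e⟩ := mem_diffs.1 hd
      exact mem_diffs.2 ⟨b, hb, a, ha, by linarith⟩
    apply card_nbij' (fun d => -d) (fun d => -d)
    · intro d hd
      simp only [coe_filter, mem_erase, Set.mem_ofPred_eq] at hd ⊢
      exact ⟨⟨by omega, neg d hd.1.2⟩, by omega⟩
    · intro d hd
      simp only [coe_filter, mem_erase, Set.mem_ofPred_eq] at hd ⊢
      exact ⟨⟨by omega, neg d hd.1.2⟩, by omega⟩
    · intro d _; simp
    · intro d _; simp
  rw [card_erase_of_mem z, hS] at e1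
  obtain ⟨r, hr⟩ := h
  omega

lemma card_le_diffs (S : Finset ℕ) : S.card ≤ (diffs S).card := by
  rcases S.eq_empty_or_nonempty with rfl | ⟨a, ha⟩
  · simp
  apply card_le_card_of_injOn (fun b : ℕ => (b : ℤ) - a)
  · intro b hb; exact mem_diffs.2 ⟨b, hb, a, ha, rfl⟩
  · intro b _ c _ h; simp only at h; omega

lemma diffs_le (S : Finset ℕ) (Z : Finset (ℕ × ℕ)) (hZ : Z ⊆ S.offDiag)
    (h : ∀ p ∈ Z, ∃ q ∈ S.offDiag, q ∉ Z ∧ (q.1 : ℤ) - q.2 = p.1 - p.2) :
    (diffs S).card + Z.card ≤ S.card * S.card - S.card + 1 := by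
  have h1 : diffs S ⊆ insert 0 ((S.offDiag \ Z).image (fun p => (p.1 : ℤ) - p.2)) := by
    intro d hd
    obtain ⟨a, ha, b, hb, rfl⟩ := mem_diffs.1 hd
    by_cases e : a = b
    · simp [e]
    refine mem_insert_of_mem ?_
    by_cases e' : (a, b) ∈ Z
    · obtain ⟨q, q1, q2, q3⟩ := h _ e'
      exact mem_image.2 ⟨q, mem_sdiff.2 ⟨q1, q2⟩, q3⟩
    · exact mem_image.2 ⟨(a, b), mem_sdiff.2 ⟨mem_offDiag.2 ⟨ha, hb, e⟩, e'⟩, rfl⟩
  have h2 := (card_le_card h1).trans (card_insert_le _ _)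
  have h3 := card_image_le (s := S.offDiag \ Z) (f := fun p => (p.1 : ℤ) - p.2)
  have h4 := card_sdiff_add_card_eq_card hZ
  rw [offDiag_card] at h4
  omega

lemma has_ap (S : Finset ℕ) (h7 : S.card = 7) (h41 : (diffs S).card = 41) :
    ∃ c d, 1 ≤ d ∧ 2 * d ≤ c ∧ c ∈ S ∧ c - d ∈ S ∧ c - 2 * d ∈ S := by
  by_contra hn
  have nap : ∀ a ∈ S, ∀ b ∈ S, ∀ c ∈ S, a + c = 2 * b → a = c := by
    intro a ha b hb c hc e
    by_contra ne
    rcases lt_or_gt_of_ne ne with h | h
    · exact hn ⟨c, c - b, by omega, by omega, hc, by rwa [show c - (c - b) = b by omega],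
        by rwa [show c - 2 * (c - b) = a by omega]⟩
    · exact hn ⟨a, a - b, by omega, by omega, ha, by rwa [show a - (a - b) = b by omega],
        by rwa [show a - 2 * (a - b) = c by omega]⟩
  have ninj : ¬ Set.InjOn (fun p : ℕ × ℕ => (p.1 : ℤ) - p.2) S.offDiag := by
    intro h
    have h1 : insert 0 (S.offDiag.image (fun p : ℕ × ℕ => (p.1 : ℤ) - p.2)) ⊆ diffs S := by
      intro d hd
      rcases mem_insert.1 hd with rfl | hd
      · obtain ⟨a, ha⟩ := card_pos.1 (show 0 < S.card by omega)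
        exact mem_diffs.2 ⟨a, ha, a, ha, sub_self _⟩
      · obtain ⟨p, hp, rfl⟩ := mem_image.1 hd
        exact mem_diffs.2 ⟨_, (mem_offDiag.1 hp).1, _, (mem_offDiag.1 hp).2.1, rfl⟩
    have h2 := card_le_card h1
    rw [card_insert_of_notMem, card_image_of_injOn h, offDiag_card, h7, h41] at h2
    · omega
    · simp only [mem_image, mem_offDiag, not_exists]
      rintro p ⟨h, e⟩
      omega
  simp only [Set.InjOn, not_forall, mem_coe, mem_offDiag, Prod.exists] at ninj
  obtain ⟨a, b, ⟨ha, hb, hab⟩, c, d, ⟨hc, hd, hcd⟩, e, ne⟩ := ninj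
  simp only [Prod.mk.injEq] at ne e ha hb hc hd hab hcd
  have ad : a ≠ d := fun h => by have := nap b hb a ha c hc (by omega); omega
  have bc : b ≠ c := fun h => by have := nap a ha b hb d hd (by omega); omega
  have ac : a ≠ c := by omega
  have bd : b ≠ d := by omega
  have := diffs_le S {(c, d), (d, c), (b, d), (d, b)} (by
      intro p hp
      simp only [mem_insert, mem_singleton] at hp
      rcases hp with rfl | rfl | rfl | rfl <;> simp [mem_offDiag, *, Ne.symm]) (by
      intro p hp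
      simp only [mem_insert, mem_singleton] at hp
      rcases hp with rfl | rfl | rfl | rfl
      · exact ⟨(a, b), by simp [mem_offDiag, *], by simp; omega, by simp; omega⟩
      · exact ⟨(b, a), by simp [mem_offDiag, *, Ne.symm], by simp; omega, by simp; omega⟩
      · exact ⟨(a, c), by simp [mem_offDiag, *], by simp; omega, by simp; omega⟩
      · exact ⟨(c, a), by simp [mem_offDiag, *, Ne.symm], by simp; omega, by simp; omega⟩)
  rw [card_insert_of_notMem (by simp; omega), card_insert_of_notMem (by simp; omega),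
    card_pair (by simp; omega), h7, h41] at this
  omega

lemma ap_sum (n : ℕ) : 4 * ∑ c ∈ range n, c / 2 ≤ n ^ 2 := by
  induction n with
  | zero => simp
  | succ n ih => rw [sum_range_succ]; nlinarith [Nat.div_mul_le_self n 2]

lemma up7 (n : ℕ) :
    96 * ((range n).powerset.filter (fun S => S.card = 7 ∧ (diffs S).card = 41)).card ≤ n ^ 6 := by
  have h1 : (range n).powerset.filter (fun S => S.card = 7 ∧ (diffs S).card = 41) ⊆
      (((range n).sigma (fun c => Icc 1 (c / 2))) ×ˢ powersetCard 4 (range n)).image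
        (fun q => {q.1.1, q.1.1 - q.1.2, q.1.1 - 2 * q.1.2} ∪ q.2) := by
    intro S hS
    simp only [mem_filter, mem_powerset] at hS
    obtain ⟨c, d, h1, h2, h3, h4, h5⟩ := has_ap S hS.2.1 hS.2.2
    have sub : ({c, c - d, c - 2 * d} : Finset ℕ) ⊆ S := by
      intro a ha
      simp only [mem_insert, mem_singleton] at ha
      rcases ha with rfl | rfl | rfl <;> assumption
    refine mem_image.2 ⟨(⟨c, d⟩, S \ {c, c - d, c - 2 * d}), ?_, union_sdiff_of_subset sub⟩
    simp only [mem_product, mem_sigma, mem_Icc, mem_powersetCard]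
    refine ⟨⟨hS.1 h3, h1, by omega⟩, sdiff_subset.trans hS.1, ?_⟩
    rw [card_sdiff_of_subset sub, card_insert_of_notMem (by simp; omega), card_pair (by omega), hS.2.1]
  have h2 := (card_le_card h1).trans card_image_le
  rw [card_product, card_sigma, card_powersetCard, card_range] at h2
  simp only [Nat.card_Icc, Nat.add_sub_cancel] at h2
  have h3 := ap_sum n
  have h4 : 24 * n.choose 4 ≤ n ^ 4 := by
    have := Nat.descFactorial_le_pow n 4
    rw [Nat.descFactorial_eq_factorial_mul_choose] at this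
    exact this
  calc 96 * _ ≤ 96 * ((∑ c ∈ range n, c / 2) * n.choose 4) := Nat.mul_le_mul_left _ h2
    _ = (4 * ∑ c ∈ range n, c / 2) * (24 * n.choose 4) := by ring
    _ ≤ n ^ 2 * n ^ 4 := Nat.mul_le_mul h3 h4
    _ = n ^ 6 := by ring

lemma up41 : ∃ C : ℕ, ∀ n, 1 ≤ n → 96 * cnt n 41 ≤ n ^ 6 + C * n ^ 5 := by
  classical
  choose! C hC using tuples
  refine ⟨96 * ∑ k ∈ Icc 8 41, C k, fun n hn => ?_⟩
  have h1 : (range n).powerset.filter (fun S => (diffs S).card = 41) ⊆
      (range n).powerset.filter (fun S => S.card = 7 ∧ (diffs S).card = 41) ∪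
      (Icc 8 41).biUnion (fun k => ((Fintype.piFinset fun _ : Fin k => range n).filter
        (fun x : Fin k → ℕ => Function.Injective x ∧ (D (fun i => (x i : ℤ))).card ≤ 41)).image
          (fun x => univ.image x)) := by
    intro S hS
    simp only [mem_filter, mem_powerset] at hS
    have a1 := card_le_diffs S
    have a2 := diffs_le S ∅ (empty_subset _) (by simp)
    by_cases h7 : S.card = 7
    · exact mem_union_left _ (mem_filter.2 ⟨mem_powerset.2 hS.1, h7, hS.2⟩)
    have h8 : 8 ≤ S.card := by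
      by_contra h
      have : S.card ≤ 6 := by omega
      rw [hS.2] at a2
      interval_cases S.card <;> omega
    have im : univ.image (S.orderEmbOfFin rfl) = S := image_orderEmbOfFin_univ S rfl
    refine mem_union_right _ (mem_biUnion.2 ⟨S.card, mem_Icc.2 ⟨h8, by omega⟩,
      mem_image.2 ⟨S.orderEmbOfFin rfl, mem_filter.2 ⟨?_, (S.orderEmbOfFin rfl).injective, ?_⟩, im⟩⟩)
    · exact Fintype.mem_piFinset.2 fun i => hS.1 (S.orderEmbOfFin_mem rfl i)
    · rw [← diffs_image, im, hS.2]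
  have h2 := (card_le_card h1).trans (card_union_le _ _)
  have h3 := up7 n
  have h4 : ((Icc 8 41).biUnion (fun k => ((Fintype.piFinset fun _ : Fin k => range n).filter
        (fun x : Fin k → ℕ => Function.Injective x ∧ (D (fun i => (x i : ℤ))).card ≤ 41)).image
          (fun x => univ.image x))).card ≤ (∑ k ∈ Icc 8 41, C k) * n ^ 5 := by
    rw [sum_mul]
    exact card_biUnion_le.trans (sum_le_sum fun k hk =>
      card_image_le.trans (hC k (mem_Icc.1 hk).1 n hn))
  unfold cnt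
  nlinarith

def Gen {d : ℕ} (t : Fin d → ℕ) : Prop :=
  ∀ c ∈ Fintype.piFinset (fun _ : Fin d => Icc (-4 : ℤ) 4), ∑ i, c i * t i = 0 → c = 0

noncomputable instance {d : ℕ} : DecidablePred (Gen (d := d)) := fun _ => Classical.dec _

lemma nongen (d n : ℕ) : ((Fintype.piFinset fun _ : Fin (d + 1) => range n).filter
    (fun t => ¬ Gen t)).card ≤ 9 ^ (d + 1) * n ^ d := by
  have h1 : (Fintype.piFinset fun _ : Fin (d + 1) => range n).filter (fun t => ¬ Gen t) ⊆
      (Fintype.piFinset (fun _ : Fin (d + 1) => Icc (-4 : ℤ) 4)).biUnion (fun c =>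
        (Fintype.piFinset fun _ : Fin (d + 1) => range n).filter
          (fun t => ∑ i, c i * t i = 0 ∧ c ≠ 0)) := by
    intro t ht
    obtain ⟨h1, h2⟩ := mem_filter.1 ht
    simp only [Gen, not_forall] at h2
    obtain ⟨c, c1, c2, c3⟩ := h2
    exact mem_biUnion.2 ⟨c, c1, mem_filter.2 ⟨h1, c2, c3⟩⟩
  refine (card_le_card h1).trans ((card_biUnion_le_card_mul _ _ (n ^ d) fun c _ => ?_).trans ?_)
  · by_cases hc : c = 0
    · simp [hc]
    obtain ⟨i, hi⟩ := Function.ne_iff.1 hc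
    have : n ^ d = (Fintype.piFinset fun _ : Fin d => range n).card := by
      rw [Fintype.card_piFinset]; simp
    rw [this]
    apply card_le_card_of_injOn (fun t j => t (i.succAbove j))
    · intro t ht
      simp only [coe_filter, Set.mem_ofPred_eq, Fintype.mem_piFinset, mem_coe] at ht ⊢
      exact fun j => ht.1 _
    · intro t ht t' ht' h
      simp only [coe_filter, Set.mem_ofPred_eq] at ht ht'
      have a := ht.2.1
      have b := ht'.2.1
      rw [Fin.sum_univ_succAbove _ i] at a b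
      have e : ∀ j, t (i.succAbove j) = t' (i.succAbove j) := fun j => congrFun h j
      simp only [e] at a
      have : (t i : ℤ) = t' i := mul_left_cancel₀ hi (by linarith)
      funext j
      rcases i.eq_self_or_eq_succAbove j with rfl | ⟨j, rfl⟩
      · exact_mod_cast this
      · exact e j
  · rw [Fintype.card_piFinset]; simp

lemma gen_eq {d : ℕ} {t : Fin d → ℕ} (h : Gen t) (u w : Fin d → ℤ) (hu : ∀ i, |u i| ≤ 2)
    (hw : ∀ i, |w i| ≤ 2) (e : ∑ i, u i * t i = ∑ i, w i * t i) : u = w := by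
  have := h (u - w) (Fintype.mem_piFinset.2 fun i => by
    have := abs_le.1 (hu i)
    have := abs_le.1 (hw i)
    simp only [Pi.sub_apply, mem_Icc]; omega) (by
    simp only [Pi.sub_apply, sub_mul, sum_sub_distrib, e, sub_self])
  exact sub_eq_zero.1 this

lemma gen_card {d : ℕ} {t : Fin d → ℕ} (h : Gen t) (v : Fin 7 → Fin d → ℤ) (hv : ∀ a i, |v a i| ≤ 1)
    (x : Fin 7 → ℕ) (hx : ∀ a, (x a : ℤ) = ∑ i, v a i * t i) :
    (diffs (univ.image x)).card = (univ.image (fun p : Fin 7 × Fin 7 => v p.1 - v p.2)).card := by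
  have e : D (fun i => (x i : ℤ)) = (univ.image (fun p : Fin 7 × Fin 7 => v p.1 - v p.2)).image
      (fun w : Fin d → ℤ => ∑ i, w i * t i) := by
    rw [image_image]
    refine image_congr fun p _ => ?_
    simp only [hx, Function.comp, Pi.sub_apply, sub_mul, sum_sub_distrib]
  rw [diffs_image, e, card_image_of_injOn]
  · have b : ∀ w ∈ univ.image (fun p : Fin 7 × Fin 7 => v p.1 - v p.2), ∀ i, |w i| ≤ 2 := by
      intro w hw i
      obtain ⟨p, -, rfl⟩ := mem_image.1 hw
      have := abs_le.1 (hv p.1 i)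
      have := abs_le.1 (hv p.2 i)
      rw [Pi.sub_apply, abs_le]; omega
    exact fun u hu w hw e => gen_eq h u w (b u hu) (b w hw) e

def v7 : Fin 7 → Fin 7 → ℤ := fun a i => if a = i then 1 else 0

lemma low43 (n : ℕ) : n ^ 7 ≤ 7 ^ 7 * cnt n 43 + 9 ^ 7 * n ^ 6 := by
  have h1 := card_filter_add_card_filter_not (s := Fintype.piFinset fun _ : Fin 7 => range n) Gen
  have h2 : ((Fintype.piFinset fun _ : Fin 7 => range n).filter (fun t => ¬ Gen t)).card
      ≤ 9 ^ 7 * n ^ 6 := nongen 6 n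
  have h3 : ((Fintype.piFinset fun _ : Fin 7 => range n).filter Gen).card ≤ 7 ^ 7 * cnt n 43 := by
    apply card_le_mul_card_image_of_maps_to (f := fun t => univ.image t)
    · intro t ht
      obtain ⟨a, b⟩ := mem_filter.1 ht
      refine mem_filter.2 ⟨mem_powerset.2 fun y hy => ?_, ?_⟩
      · obtain ⟨i, -, rfl⟩ := mem_image.1 hy
        exact Fintype.mem_piFinset.1 a i
      · rw [gen_card b v7 (by decide) t (by simp [v7])]
        decide +kernel
    · intro S _
      rcases (filter (fun t => univ.image t = S) ((Fintype.piFinset fun _ : Fin 7 => range n).filter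
        Gen)).eq_empty_or_nonempty with h | ⟨t0, h0⟩
      · rw [h]; simp
      have c : S.card ≤ 7 := by
        rw [← (mem_filter.1 h0).2]; exact card_image_le.trans (by simp)
      refine le_trans (card_le_card (t := Fintype.piFinset fun _ : Fin 7 => S) fun t ht => ?_) ?_
      · exact Fintype.mem_piFinset.2 fun i => (mem_filter.1 ht).2 ▸ mem_image_of_mem _ (mem_univ i)
      · rw [Fintype.card_piFinset]
        simpa using Nat.pow_le_pow_left c 7
  rw [Fintype.card_piFinset] at h1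
  simp only [card_range, prod_const, card_univ, Fintype.card_fin] at h1
  omega

def v6 : Fin 7 → Fin 6 → ℤ :=
  ![![1, 0, 0, 0, 0, 0], ![0, 1, 0, 0, 0, 0], ![0, 0, 1, 0, 0, 0], ![0, 0, 0, 1, 0, 0],
    ![0, 0, 0, 0, 1, 0], ![0, 0, 0, 0, 0, 1], ![1, 1, -1, 0, 0, 0]]

def ext6 (t : Fin 6 → ℕ) : Fin 7 → ℕ := ![t 0, t 1, t 2, t 3, t 4, t 5, t 0 + t 1 - t 2]

lemma ext6_eq (t : Fin 6 → ℕ) (h : t 2 ≤ t 0 + t 1) (a : Fin 7) :
    (ext6 t a : ℤ) = ∑ i, v6 a i * t i := by
  fin_cases a <;> simp [ext6, v6, Fin.sum_univ_six]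
  omega

def uu : Fin 7 → ℤ := ![1, 10, 100, 1000, 10000, 100000, -89]

def Q8 : Finset (Fin 7 × Fin 7 × Fin 7) :=
  {(0, 1, 2), (0, 1, 6), (1, 0, 2), (1, 0, 6), (2, 6, 0), (2, 6, 1), (6, 2, 0), (6, 2, 1)}

def R6 : Finset (Fin 7 × Fin 7 × Fin 7) :=
  {(3, 4, 5), (3, 5, 4), (4, 3, 5), (4, 5, 3), (5, 3, 4), (5, 4, 3)}

lemma q8 : ∀ a b c d : Fin 7, uu a + uu b = uu c + uu d → a = c ∨ a = d ∨ ((a, b, c) ∈ Q8 ∧
    ({a, b, c, d} : Finset (Fin 7)) = {0, 1, 2, 6}) := by decide +kernel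

lemma q9 : ∀ e : Fin 7, e ∉ ({0, 1, 2, 6} : Finset (Fin 7)) → e = 3 ∨ e = 4 ∨ e = 5 := by decide

lemma r6 : ∀ a b c : Fin 7, (a = 3 ∨ a = 4 ∨ a = 5) → (b = 3 ∨ b = 4 ∨ b = 5) →
    (c = 3 ∨ c = 4 ∨ c = 5) → a ≠ b → a ≠ c → b ≠ c → (a, b, c) ∈ R6 := by decide +kernel

lemma uu_eq : ∀ a, uu a = ∑ i, v6 a i * 10 ^ i.val := by decide +kernel

lemma v6_inj : ∀ a b, v6 a = v6 b → a = b := by decide +kernel

lemma v6_le : ∀ a i, |v6 a i| ≤ 1 := by decide +kernel

lemma tri (n : ℕ) (f : ℕ → ℕ) (hf : ∀ a < n, f a < n)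
    (hi : ∀ a < n, ∀ b < n, f a = f b → a = b) :
    6 * ((Fintype.piFinset fun _ : Fin 6 => range n).filter
      (fun t => f (t 0) + f (t 1) < f (t 2))).card ≤ n ^ 6 := by
  have s1 : ∀ c, 2 * ∑ s ∈ range c, (s + 1) = c * (c + 1) := by
    intro c
    induction c with
    | zero => simp
    | succ c ih => rw [sum_range_succ, mul_add, ih]; ring
  have s2 : ∀ m, 6 * ∑ c ∈ range m, ∑ s ∈ range c, (s + 1) + m = m ^ 3 := by
    intro m
    induction m with
    | zero => simp
    | succ m ih => rw [sum_range_succ]; nlinarith [s1 m]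
  have h1 : ((Fintype.piFinset fun _ : Fin 6 => range n).filter
      (fun t => f (t 0) + f (t 1) < f (t 2))).card ≤
      (((range n).sigma (fun c => (range c).sigma antidiagonal)) ×ˢ
        (range n ×ˢ range n ×ˢ range n)).card := by
    apply card_le_card_of_injOn (fun t => (⟨f (t 2), f (t 0) + f (t 1),
      (f (t 0), f (t 1))⟩, (t 3, t 4, t 5)))
    · intro t ht
      simp only [coe_filter, Set.mem_ofPred_eq, Fintype.mem_piFinset, mem_range] at ht
      simp only [mem_coe, mem_product, mem_sigma, mem_range, HasAntidiagonal.mem_antidiagonal]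
      exact ⟨⟨hf _ (ht.1 2), ht.2, trivial⟩, ht.1 3, ht.1 4, ht.1 5⟩
    · intro t ht t' ht' h
      simp only [coe_filter, Set.mem_ofPred_eq, Fintype.mem_piFinset, mem_range] at ht ht'
      simp only [Prod.mk.injEq, Sigma.mk.injEq, heq_eq_eq] at h
      funext i
      fin_cases i
      · exact hi _ (ht.1 0) _ (ht'.1 0) h.1.2.2.1
      · exact hi _ (ht.1 1) _ (ht'.1 1) h.1.2.2.2
      · exact hi _ (ht.1 2) _ (ht'.1 2) h.1.1
      · exact h.2.1
      · exact h.2.2.1
      · exact h.2.2.2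
  simp only [card_product, card_sigma, Nat.card_antidiagonal, card_range] at h1
  have h2 : 6 * ∑ c ∈ range n, ∑ s ∈ range c, (s + 1) ≤ n ^ 3 := by have := s2 n; omega
  calc 6 * _ ≤ 6 * ((∑ c ∈ range n, ∑ s ∈ range c, (s + 1)) * (n * (n * n))) :=
        Nat.mul_le_mul_left _ h1
    _ = (6 * ∑ c ∈ range n, ∑ s ∈ range c, (s + 1)) * n ^ 3 := by ring
    _ ≤ n ^ 3 * n ^ 3 := Nat.mul_le_mul_right _ h2
    _ = n ^ 6 := by ring

lemma low39 (n : ℕ) : 2 * n ^ 6 ≤ 144 * cnt n 39 + 3 * 9 ^ 6 * n ^ 5 := by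
  set X := Fintype.piFinset fun _ : Fin 6 => range n with hX
  set G := X.filter (fun t => Gen t ∧ t 2 ≤ t 0 + t 1 ∧ t 0 + t 1 < n + t 2) with hG
  have h1 : X ⊆ G ∪ X.filter (fun t => ¬ Gen t) ∪ X.filter (fun t => t 0 + t 1 < t 2) ∪
      X.filter (fun t => (n - 1 - t 0) + (n - 1 - t 1) < n - 1 - t 2) := by
    intro t ht
    have b := Fintype.mem_piFinset.1 ht
    have b0 := mem_range.1 (b 0)
    have b1 := mem_range.1 (b 1)
    have b2 := mem_range.1 (b 2)
    simp only [hG, mem_union, mem_filter, ht, true_and]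
    by_cases g : Gen t
    · simp only [g, true_and, not_true, or_false]; omega
    · simp [g]
  have h2 := (card_le_card h1).trans ((card_union_le _ _).trans (Nat.add_le_add_right
    ((card_union_le _ _).trans (Nat.add_le_add_right (card_union_le _ _) _)) _))
  have h3 : (X.filter (fun t => ¬ Gen t)).card ≤ 9 ^ 6 * n ^ 5 := nongen 5 n
  have h4 : 6 * (X.filter (fun t => t 0 + t 1 < t 2)).card ≤ n ^ 6 :=
    tri n (fun t => t) (fun a h => h) (fun a _ b _ h => h)
  have h5 : 6 * (X.filter (fun t => (n - 1 - t 0) + (n - 1 - t 1) < n - 1 - t 2)).card ≤ n ^ 6 :=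
    tri n (fun t => n - 1 - t) (fun a h => by omega) (fun a _ b _ h => by omega)
  have h6 : G.card ≤ 48 * cnt n 39 := by
    apply card_le_mul_card_image_of_maps_to (f := fun t => univ.image (ext6 t))
    · intro t ht
      obtain ⟨a, b, c, d⟩ := mem_filter.1 ht
      have a := fun i => mem_range.1 (Fintype.mem_piFinset.1 a i)
      refine mem_filter.2 ⟨mem_powerset.2 fun y hy => ?_, ?_⟩
      · obtain ⟨i, -, rfl⟩ := mem_image.1 hy
        rw [mem_range]
        fin_cases i <;> simp [ext6, a]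
        omega
      · rw [gen_card b v6 v6_le _ (ext6_eq t c)]
        decide +kernel
    · intro S _
      rcases (filter (fun t => univ.image (ext6 t) = S) G).eq_empty_or_nonempty with h | ⟨t0, h0⟩
      · rw [h]; simp
      obtain ⟨h0, e0⟩ := mem_filter.1 h0
      obtain ⟨-, g0, c0, -⟩ := mem_filter.1 h0
      refine le_trans (card_le_card (t := (Q8 ×ˢ R6).image (fun q => ![ext6 t0 q.1.1,
        ext6 t0 q.1.2.1, ext6 t0 q.1.2.2, ext6 t0 q.2.1, ext6 t0 q.2.2.1, ext6 t0 q.2.2.2]))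
        fun t ht => ?_) (card_image_le.trans (by decide +kernel))
      obtain ⟨h1, e1⟩ := mem_filter.1 ht
      obtain ⟨-, g1, c1, -⟩ := mem_filter.1 h1
      have ex : ∀ a, ∃ b, ext6 t0 b = ext6 t a := by
        intro a
        have : ext6 t a ∈ univ.image (ext6 t0) := by
          rw [e0, ← e1]; exact mem_image_of_mem _ (mem_univ _)
        obtain ⟨b, -, hb⟩ := mem_image.1 this
        exact ⟨b, hb⟩
      choose σ hσ using ex
      have le2 : ∀ a i, |v6 a i| ≤ 2 := fun a i => (v6_le a i).trans (by norm_num)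
      have inj : ∀ a b, a ≠ b → σ a ≠ σ b := by
        intro a b hab h
        refine hab (v6_inj a b (gen_eq g1 _ _ (le2 a) (le2 b) ?_))
        rw [← ext6_eq t c1, ← ext6_eq t c1, ← hσ, ← hσ, h]
      have le3 : ∀ a b i, |(v6 a + v6 b) i| ≤ 2 := fun a b i => by
        have := abs_le.1 (v6_le a i)
        have := abs_le.1 (v6_le b i)
        rw [Pi.add_apply, abs_le]; omega
      have rel : v6 (σ 0) + v6 (σ 1) = v6 (σ 2) + v6 (σ 6) := by
        refine gen_eq g0 _ _ (le3 _ _) (le3 _ _) ?_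
        simp only [Pi.add_apply, add_mul, sum_add_distrib, ← ext6_eq t0 c0, hσ]
        simp [ext6]
        omega
      have rel' : uu (σ 0) + uu (σ 1) = uu (σ 2) + uu (σ 6) := by
        simp only [uu_eq, ← sum_add_distrib, ← add_mul]
        exact sum_congr rfl fun i _ => by rw [← Pi.add_apply, ← Pi.add_apply (v6 (σ 2)), rel]
      obtain ⟨q1, q2⟩ := ((q8 _ _ _ _ rel').resolve_left (inj 0 2 (by decide))).resolve_left
        (inj 0 6 (by decide))
      have q3 : ∀ a : Fin 7, a ≠ 0 → a ≠ 1 → a ≠ 2 → a ≠ 6 → σ a = 3 ∨ σ a = 4 ∨ σ a = 5 :=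
        fun a h0 h1 h2 h6 => q9 _ (by
          rw [← q2]
          simp [inj _ _ h0, inj _ _ h1, inj _ _ h2, inj _ _ h6])
      have q4 := r6 (σ 3) (σ 4) (σ 5) (q3 3 (by decide) (by decide) (by decide) (by decide))
        (q3 4 (by decide) (by decide) (by decide) (by decide))
        (q3 5 (by decide) (by decide) (by decide) (by decide))
        (inj 3 4 (by decide)) (inj 3 5 (by decide)) (inj 4 5 (by decide))
      refine mem_image.2 ⟨((σ 0, σ 1, σ 2), (σ 3, σ 4, σ 5)), mem_product.2 ⟨q1, q4⟩, ?_⟩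
      simp only [hσ]
      funext i
      fin_cases i <;> rfl
  have h7 : X.card = n ^ 6 := by rw [hX, Fintype.card_piFinset]; simp
  omega

lemma pos41 (n : ℕ) (hn : 151 ≤ n) : 0 < cnt n 41 := by
  refine card_pos.2 ⟨{0, 1, 2, 10, 30, 70, 150}, mem_filter.2 ⟨mem_powerset.2 ?_, by decide +kernel⟩⟩
  intro a ha
  simp only [mem_insert, mem_singleton] at ha
  rw [mem_range]; omega

lemma divot : ∃ N, ∀ n ≥ N, Divot (P n) 41 := by
  obtain ⟨C, hC⟩ := up41
  refine ⟨151 + 3 * C + 6 * 9 ^ 6 + 96 * 9 ^ 7 + 7 ^ 7 * (1 + C), fun n hn => ?_⟩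
  have a := hC n (by omega)
  have b := low39 n
  have c := low43 n
  have p := pos41 n (by omega)
  have n5 : 0 < n ^ 5 := by have : 0 < n := by omega
                            positivity
  have e6 : n ^ 6 = n * n ^ 5 := by ring
  have e7 : n ^ 7 = n * n ^ 6 := by ring
  have l1 : cnt n 41 < cnt n 39 := by
    have : (3 * C + 6 * 9 ^ 6 + 1) * n ^ 5 ≤ n * n ^ 5 := Nat.mul_le_mul_right _ (by omega)
    nlinarith
  have l2 : cnt n 41 < cnt n 43 := by
    have h1 : 1 * n ^ 5 ≤ n * n ^ 5 := Nat.mul_le_mul_right _ (by omega)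
    have h2 : (9 ^ 7 + 7 ^ 7 * (1 + C) + 1) * n ^ 6 ≤ n * n ^ 6 := Nat.mul_le_mul_right _ (by omega)
    have h3 : C * n ^ 5 ≤ C * n ^ 6 := Nat.mul_le_mul_left _ (by omega)
    have h4 : cnt n 41 ≤ (1 + C) * n ^ 6 := by nlinarith
    have h5 : 7 ^ 7 * cnt n 41 ≤ 7 ^ 7 * ((1 + C) * n ^ 6) := Nat.mul_le_mul_left _ h4
    have h6 : 7 ^ 7 * cnt n 41 < 7 ^ 7 * cnt n 43 := by nlinarith
    exact Nat.lt_of_mul_lt_mul_left h6
  have lt : ∀ i j, cnt n i < cnt n j → P n i < P n j := fun i j h =>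
    div_lt_div_of_pos_right (by exact_mod_cast h) (by positivity)
  have ps : 0 < P n 41 := div_pos (by exact_mod_cast p) (by positivity)
  refine ⟨ps, ⟨39, by norm_num, (ps.trans (lt _ _ l1)).ne', fun l h1 h2 => ?_, lt _ _ l1⟩,
    ⟨43, by norm_num, (ps.trans (lt _ _ l2)).ne', fun l h1 h2 => ?_, lt _ _ l2⟩⟩
  · rw [show l = 40 by omega, P, cnt_even n 40 (by decide) (by decide)]; simp
  · rw [show l = 42 by omega, P, cnt_even n 42 (by decide) (by decide)]; simp

theorem result : (∃ N, ∀ n ≥ N, Divot (P n) 41) ∧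
    ¬ (∃ N, ∀ n ≥ N, ∀ i, Divot (P n) i → ∃ k, 2 ≤ k ∧ i = k * (k - 1) + 3) := by
  refine ⟨divot, fun ⟨N, hN⟩ => ?_⟩
  obtain ⟨M, hM⟩ := divot
  obtain ⟨k, h1, h2⟩ := hN (max N M) (le_max_left _ _) 41 (hM _ (le_max_right _ _))
  have : k ≤ 7 := by
    by_contra h
    have : 8 * 7 ≤ k * (k - 1) := Nat.mul_le_mul (by omega) (by omega)
    omega
  interval_cases k <;> omega

end Pool.Agent.Results.MP_d8403e_co.Divot41
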